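/-
helper47: module AMALG of helper10 (MP_b95bd9_al, rank one case).
-/
import Pool.Agent.H10.PB.Targets

set_option autoImplicit false

namespace Pool.Agent.H47.PB

open Pool.Agent.H10.PB

section amalg

variable {A : Type} [CommGroup A] (Wd E K : ℤ → Subgroup A)

theorem left_aux (h1 : ∀ c, K c ≤ Wd c)
    (h2 : ∀ i x, x ∈ (⨆ c : {c : ℤ // c < i}, Wd c) → x ∈ (⨆ c : {c : ℤ // i ≤ c}, Wd c) → x ∈ E i)
    (h3 : ∀ i, E i ≤ Wd (i - 1) ⊓ Wd i) (h4 : ∀ i, K (i - 1) ⊓ E i = K i ⊓ E i) :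
    ∀ (m : ℕ) (i : ℤ) (x : A), x ∈ (⨆ c : {c : ℤ // i - m ≤ c ∧ c < i}, K c) → x ∈ E i →
      x ∈ K i := by
  intro m
  induction m with
  | zero =>
    intro i x hx _
    have h5 : (⨆ c : {c : ℤ // i - (0 : ℕ) ≤ c ∧ c < i}, K c) ≤ ⊥ := by
      refine iSup_le fun c => ?_
      have := c.2
      simp only [Nat.cast_zero, sub_zero] at this
      omega
    have h6 := h5 hx
    rw [Subgroup.mem_bot] at h6
    rw [h6]
    exact one_mem _
  | succ m ih =>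
    intro i x hx hE
    have h5 : (⨆ c : {c : ℤ // i - (m + 1 : ℕ) ≤ c ∧ c < i}, K c) ≤
        (⨆ c : {c : ℤ // (i - 1) - m ≤ c ∧ c < i - 1}, K c) ⊔ K (i - 1) := by
      refine iSup_le fun c => ?_
      have hc := c.2
      push_cast at hc
      rcases lt_or_ge c.1 (i - 1) with h | h
      · refine le_sup_of_le_left (le_iSup_of_le (ι := {c : ℤ // (i - 1) - m ≤ c ∧ c < i - 1})
          ⟨c.1, by omega, h⟩ le_rfl)
      · have h6 : c.1 = i - 1 := by omega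
        rw [h6]
        exact le_sup_right
    obtain ⟨l, hl, h, hh, rfl⟩ := Subgroup.mem_sup.1 (h5 hx)
    have h6 : l * h ∈ Wd (i - 1) := (h3 i hE).1
    have h7 : l ∈ Wd (i - 1) := by
      have := mul_mem h6 (inv_mem (h1 _ hh))
      rwa [mul_inv_cancel_right] at this
    have h8 : l ∈ (⨆ c : {c : ℤ // i - 1 ≤ c}, Wd c) :=
      (le_iSup (fun c : {c : ℤ // i - 1 ≤ c} => Wd c) ⟨i - 1, le_rfl⟩) h7
    have h9 : l ∈ (⨆ c : {c : ℤ // c < i - 1}, Wd c) := by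
      refine (iSup_le fun c => ?_ : (⨆ c : {c : ℤ // (i - 1) - m ≤ c ∧ c < i - 1}, K c) ≤ _) hl
      exact (h1 _).trans (le_iSup (fun c : {c : ℤ // c < i - 1} => Wd c) ⟨c.1, c.2.2⟩)
    have h10 : l ∈ K (i - 1) := ih (i - 1) l hl (h2 _ _ h9 h8)
    have h11 : l * h ∈ K (i - 1) ⊓ E i := ⟨mul_mem h10 hh, hE⟩
    rw [h4] at h11
    exact h11.1

theorem right_aux (h1 : ∀ c, K c ≤ Wd c)
    (h2 : ∀ i x, x ∈ (⨆ c : {c : ℤ // c < i}, Wd c) → x ∈ (⨆ c : {c : ℤ // i ≤ c}, Wd c) → x ∈ E i)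
    (h3 : ∀ i, E i ≤ Wd (i - 1) ⊓ Wd i) (h4 : ∀ i, K (i - 1) ⊓ E i = K i ⊓ E i) :
    ∀ (m : ℕ) (i : ℤ) (x : A), x ∈ (⨆ c : {c : ℤ // i ≤ c ∧ c < i + m}, K c) → x ∈ E i →
      x ∈ K (i - 1) := by
  intro m
  induction m with
  | zero =>
    intro i x hx _
    have h5 : (⨆ c : {c : ℤ // i ≤ c ∧ c < i + (0 : ℕ)}, K c) ≤ ⊥ := by
      refine iSup_le fun c => ?_
      have := c.2
      simp only [Nat.cast_zero, add_zero] at this
      omega
    have h6 := h5 hx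
    rw [Subgroup.mem_bot] at h6
    rw [h6]
    exact one_mem _
  | succ m ih =>
    intro i x hx hE
    have h5 : (⨆ c : {c : ℤ // i ≤ c ∧ c < i + (m + 1 : ℕ)}, K c) ≤
        (⨆ c : {c : ℤ // i + 1 ≤ c ∧ c < (i + 1) + m}, K c) ⊔ K i := by
      refine iSup_le fun c => ?_
      have hc := c.2
      push_cast at hc
      rcases lt_or_ge i c.1 with h | h
      · refine le_sup_of_le_left (le_iSup_of_le (ι := {c : ℤ // i + 1 ≤ c ∧ c < (i + 1) + m})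
          ⟨c.1, by omega, by omega⟩ le_rfl)
      · have h6 : c.1 = i := by omega
        rw [h6]
        exact le_sup_right
    obtain ⟨l, hl, h, hh, rfl⟩ := Subgroup.mem_sup.1 (h5 hx)
    have h6 : l * h ∈ Wd i := (h3 i hE).2
    have h7 : l ∈ Wd i := by
      have := mul_mem h6 (inv_mem (h1 _ hh))
      rwa [mul_inv_cancel_right] at this
    have h8 : l ∈ (⨆ c : {c : ℤ // c < i + 1}, Wd c) :=
      (le_iSup (fun c : {c : ℤ // c < i + 1} => Wd c) ⟨i, by omega⟩) h7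
    have h9 : l ∈ (⨆ c : {c : ℤ // i + 1 ≤ c}, Wd c) := by
      refine (iSup_le fun c => ?_ : (⨆ c : {c : ℤ // i + 1 ≤ c ∧ c < (i + 1) + m}, K c) ≤ _) hl
      exact (h1 _).trans (le_iSup (fun c : {c : ℤ // i + 1 ≤ c} => Wd c) ⟨c.1, c.2.1⟩)
    have h10 : l ∈ K (i + 1 - 1) := ih (i + 1) l hl (h2 _ _ h8 h9)
    rw [add_sub_cancel_right] at h10
    have h11 : l * h ∈ K i ⊓ E i := ⟨mul_mem h10 hh, hE⟩
    rw [← h4] at h11
    exact h11.1

end amalg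

theorem AMALG : T_AMALG := by
  intro A _ Wd E K h1 h2 h3 h4 i x hx
  refine ⟨fun hK => ?_, fun hK => (le_iSup K i) hK⟩
  have h5 : (⨆ c, K c) ≤
      ((⨆ c : {c : ℤ // c < i}, K c) ⊔ K i) ⊔ (⨆ c : {c : ℤ // i + 1 ≤ c}, K c) := by
    refine iSup_le fun c => ?_
    rcases lt_trichotomy c i with h | h | h
    · exact le_sup_of_le_left (le_sup_of_le_left
        (le_iSup (fun c : {c : ℤ // c < i} => K c) ⟨c, h⟩))
    · rw [h]
      exact le_sup_of_le_left le_sup_right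
    · exact le_sup_of_le_right (le_iSup (fun c : {c : ℤ // i + 1 ≤ c} => K c) ⟨c, h⟩)
  obtain ⟨lh, hlh, r, hr, rfl⟩ := Subgroup.mem_sup.1 (h5 hK)
  obtain ⟨l, hl, h, hh, rfl⟩ := Subgroup.mem_sup.1 hlh
  have hlW : l ∈ (⨆ c : {c : ℤ // c < i}, Wd c) :=
    (iSup_mono fun c : {c : ℤ // c < i} => h1 c) hl
  have hrW : r ∈ (⨆ c : {c : ℤ // i + 1 ≤ c}, Wd c) :=
    (iSup_mono fun c : {c : ℤ // i + 1 ≤ c} => h1 c) hr
  have hl2 : l ∈ (⨆ c : {c : ℤ // i ≤ c}, Wd c) := by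
    have e : l = (l * h * r) * r⁻¹ * h⁻¹ := by group
    rw [e]
    refine mul_mem (mul_mem ?_ (inv_mem ?_)) (inv_mem ?_)
    · exact (le_iSup (fun c : {c : ℤ // i ≤ c} => Wd c) ⟨i, le_rfl⟩) hx
    · refine (iSup_le fun c => ?_ : (⨆ c : {c : ℤ // i + 1 ≤ c}, Wd c) ≤ _) hrW
      exact le_iSup (fun c : {c : ℤ // i ≤ c} => Wd c) ⟨c.1, by have := c.2; omega⟩
    · exact (le_iSup (fun c : {c : ℤ // i ≤ c} => Wd c) ⟨i, le_rfl⟩) (h1 i hh)
  have hr2 : r ∈ (⨆ c : {c : ℤ // c < i + 1}, Wd c) := by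
    have e : r = (l * h)⁻¹ * (l * h * r) := by group
    rw [e]
    refine mul_mem (inv_mem (mul_mem ?_ ?_)) ?_
    · refine (iSup_le fun c => ?_ : (⨆ c : {c : ℤ // c < i}, Wd c) ≤ _) hlW
      exact le_iSup (fun c : {c : ℤ // c < i + 1} => Wd c) ⟨c.1, by have := c.2; omega⟩
    · exact (le_iSup (fun c : {c : ℤ // c < i + 1} => Wd c) ⟨i, by omega⟩) (h1 i hh)
    · exact (le_iSup (fun c : {c : ℤ // c < i + 1} => Wd c) ⟨i, by omega⟩) hx
  have hlE : l ∈ E i := h2 i l hlW hl2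
  have hrE : r ∈ E (i + 1) := h2 (i + 1) r hr2 hrW
  -- finite ranges
  have hlK : l ∈ K i := by
    have h6 : (⨆ c : {c : ℤ // c < i}, K c) ≤
        ⨆ m : ℕ, ⨆ c : {c : ℤ // i - m ≤ c ∧ c < i}, K c := by
      refine iSup_le fun c => ?_
      have hc := c.2
      refine le_iSup_of_le (i - c.1).toNat (le_iSup_of_le
        (ι := {c' : ℤ // i - ((i - c.1).toNat : ℕ) ≤ c' ∧ c' < i}) ⟨c.1, by omega, hc⟩ le_rfl)
    have h7 := h6 hl
    rw [Subgroup.mem_iSup_of_directed] at h7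
    · obtain ⟨m, hm⟩ := h7
      exact left_aux Wd E K h1 h2 h3 h4 m i l hm hlE
    · refine Monotone.directed_le fun m m' hmm => ?_
      refine iSup_le fun c => ?_
      have hc := c.2
      exact le_iSup_of_le (ι := {c : ℤ // i - m' ≤ c ∧ c < i}) ⟨c.1, by omega, hc.2⟩ le_rfl
  have hrK : r ∈ K i := by
    have h6 : (⨆ c : {c : ℤ // i + 1 ≤ c}, K c) ≤
        ⨆ m : ℕ, ⨆ c : {c : ℤ // i + 1 ≤ c ∧ c < i + 1 + m}, K c := by
      refine iSup_le fun c => ?_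
      have hc := c.2
      refine le_iSup_of_le (c.1 - i).toNat (le_iSup_of_le
        (ι := {c' : ℤ // i + 1 ≤ c' ∧ c' < i + 1 + ((c.1 - i).toNat : ℕ)}) ⟨c.1, hc, by omega⟩
        le_rfl)
    have h7 := h6 hr
    rw [Subgroup.mem_iSup_of_directed] at h7
    · obtain ⟨m, hm⟩ := h7
      have h8 := right_aux Wd E K h1 h2 h3 h4 m (i + 1) r hm hrE
      rwa [add_sub_cancel_right] at h8
    · refine Monotone.directed_le fun m m' hmm => ?_
      refine iSup_le fun c => ?_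
      have hc := c.2
      exact le_iSup_of_le (ι := {c : ℤ // i + 1 ≤ c ∧ c < i + 1 + m'}) ⟨c.1, hc.1, by omega⟩ le_rfl
  exact mul_mem (mul_mem hlK hh) hrK

end Pool.Agent.H47.PB
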