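/-
helper47: module CLOSE of helper10 (MP_b95bd9_al, rank one case).
-/
import Pool.Agent.H47.PB.AMALG

set_option autoImplicit false

namespace Pool.Agent.H47.PB

open Pool.Agent.H10.PS Pool.Agent.H10.PB
open scoped commutatorElement

section close

variable {r : ℕ} {R N : Subgroup (FG r)} {t : FG r}

theorem win_mono (W : Win R N t) {a b a' b' : ℤ} (ha : a' ≤ a) (hb : b ≤ b') {x : FG r}
    (hx : x ∈ W.V a b) : x ∈ W.V a' b' := W.mono a b a' b' ha hb hx

theorem win_shift_nat (W : Win R N t) (k : ℕ) : ∀ (a b : ℤ) (x : FG r),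
    x ∈ W.V a b ↔ t ^ k * x * (t ^ k)⁻¹ ∈ W.V (a + k) (b + k) := by
  induction k with
  | zero =>
    intro a b x
    simp
  | succ k ih =>
    intro a b x
    rw [ih a b x, W.shift]
    have e : t * (t ^ k * x * (t ^ k)⁻¹) * t⁻¹ = t ^ (k + 1) * x * (t ^ (k + 1))⁻¹ := by
      rw [pow_succ']
      group
    rw [e]
    push_cast
    rw [add_assoc, add_assoc]

theorem win_shift (W : Win R N t) (k : ℤ) (a b : ℤ) (x : FG r) :
    x ∈ W.V a b ↔ t ^ k * x * (t ^ k)⁻¹ ∈ W.V (a + k) (b + k) := by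
  obtain ⟨m, rfl | rfl⟩ := k.eq_nat_or_neg
  · rw [zpow_natCast]
    exact win_shift_nat W m a b x
  · have h := win_shift_nat W m (a + -m) (b + -m) (t ^ (-(m : ℤ)) * x * (t ^ (-(m : ℤ)))⁻¹)
    rw [h]
    have e : t ^ m * (t ^ (-(m : ℤ)) * x * (t ^ (-(m : ℤ)))⁻¹) * (t ^ m)⁻¹ = x := by
      rw [zpow_neg, zpow_natCast]
      group
    rw [e, neg_add_cancel_right, neg_add_cancel_right]

/-- the translate of a subgroup by `t ^ k` -/
def tr (t : FG r) (k : ℤ) (X : Subgroup (FG r)) : Subgroup (FG r) where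
  carrier := {x | (t ^ k)⁻¹ * x * t ^ k ∈ X}
  one_mem' := by simp
  mul_mem' := by
    intro a b ha hb
    have e : (t ^ k)⁻¹ * (a * b) * t ^ k = ((t ^ k)⁻¹ * a * t ^ k) * ((t ^ k)⁻¹ * b * t ^ k) := by
      group
    show (t ^ k)⁻¹ * (a * b) * t ^ k ∈ X
    rw [e]
    exact mul_mem ha hb
  inv_mem' := by
    intro a ha
    have e : (t ^ k)⁻¹ * a⁻¹ * t ^ k = ((t ^ k)⁻¹ * a * t ^ k)⁻¹ := by
      group
    show (t ^ k)⁻¹ * a⁻¹ * t ^ k ∈ X
    rw [e]
    exact inv_mem ha

theorem mem_tr {k : ℤ} {X : Subgroup (FG r)} {x : FG r} :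
    x ∈ tr t k X ↔ (t ^ k)⁻¹ * x * t ^ k ∈ X := Iff.rfl

theorem conj_R (hS : Sett R N) {x : FG r} (g : FG r) : x ∈ R ↔ g * x * g⁻¹ ∈ R := by
  refine ⟨fun h => hS.Rn.conj_mem x h g, fun h => ?_⟩
  have := hS.Rn.conj_mem _ h g⁻¹
  have e : g⁻¹ * (g * x * g⁻¹) * g⁻¹⁻¹ = x := by group
  rwa [e] at this

theorem conj_N (hS : Sett R N) {x : FG r} (g : FG r) (h : x ∈ N) : g * x * g⁻¹ ∈ N :=
  hS.Nn.conj_mem x h g

theorem cl_le {W : Win R N t} (hS : Sett R N) (s n : ℕ) (K : Subgroup (FG r)) : Cl W s n K ≤ R := by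
  refine (Subgroup.closure_le _).2 ?_
  rintro y ⟨c, x, _, hx, _, rfl⟩
  exact (conj_R hS _).1 hx

theorem mem_cl_gen {W : Win R N t} {s n : ℕ} {K : Subgroup (FG r)} (c : ℤ) {x : FG r} (h1 : x ∈ K)
    (h2 : x ∈ R) (h3 : x ∈ W.V (-s) (n + s)) :
    t ^ (c * n) * x * (t ^ (c * n))⁻¹ ∈ Cl W s n K :=
  Subgroup.subset_closure ⟨c, x, h1, h2, h3, rfl⟩

theorem mem_cl {W : Win R N t} {s n : ℕ} {K : Subgroup (FG r)} {x : FG r} (h1 : x ∈ K)
    (h2 : x ∈ R) (h3 : x ∈ W.V (-s) (n + s)) : x ∈ Cl W s n K := by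
  have := mem_cl_gen (W := W) (s := s) (n := n) (K := K) 0 h1 h2 h3
  simpa using this

theorem cl_conj {W : Win R N t} {s n : ℕ} {K : Subgroup (FG r)} (d : ℤ) {x : FG r}
    (hx : x ∈ Cl W s n K) : t ^ (d * n) * x * (t ^ (d * n))⁻¹ ∈ Cl W s n K := by
  refine Subgroup.closure_induction
    (p := fun x _ => t ^ (d * n) * x * (t ^ (d * n))⁻¹ ∈ Cl W s n K) ?_ ?_ ?_ ?_ hx
  · rintro y ⟨c, x, h1, h2, h3, rfl⟩
    have e : t ^ (d * n) * (t ^ (c * n) * x * (t ^ (c * n))⁻¹) * (t ^ (d * n))⁻¹ =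
        t ^ ((d + c) * n) * x * (t ^ ((d + c) * n))⁻¹ := by
      rw [add_mul, zpow_add]
      group
    rw [e]
    exact mem_cl_gen _ h1 h2 h3
  · simp
  · intro a b _ _ ha hb
    have e : t ^ (d * n) * (a * b) * (t ^ (d * n))⁻¹ =
        (t ^ (d * n) * a * (t ^ (d * n))⁻¹) * (t ^ (d * n) * b * (t ^ (d * n))⁻¹) := by group
    rw [e]
    exact mul_mem ha hb
  · intro a _ ha
    have e : t ^ (d * n) * a⁻¹ * (t ^ (d * n))⁻¹ = (t ^ (d * n) * a * (t ^ (d * n))⁻¹)⁻¹ := by group
    rw [e]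
    exact inv_mem ha

/-- the group `R / N` is commutative -/
abbrev Quo (R N : Subgroup (FG r)) [(N.subgroupOf R).Normal] := ↥R ⧸ N.subgroupOf R

theorem quo_comm (hS : Sett R N) [(N.subgroupOf R).Normal] (x y : Quo R N) : x * y = y * x := by
  induction x using QuotientGroup.induction_on with
  | H a =>
    induction y using QuotientGroup.induction_on with
    | H b =>
      rw [← QuotientGroup.mk_mul, ← QuotientGroup.mk_mul, QuotientGroup.eq]
      rw [Subgroup.mem_subgroupOf]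
      have e : (((a * b)⁻¹ * (b * a) : ↥R) : FG r) =
          ⁅(b : FG r)⁻¹, (a : FG r)⁻¹⁆ := by
        rw [commutatorElement_def]
        push_cast
        group
      rw [e]
      exact hS.RR (Subgroup.commutator_mem_commutator (inv_mem b.2) (inv_mem a.2))

/-- the image of `X ⊓ R` in `R / N` -/
def Bar (R N X : Subgroup (FG r)) [(N.subgroupOf R).Normal] : Subgroup (Quo R N) :=
  (X.subgroupOf R).map (QuotientGroup.mk' (N.subgroupOf R))

theorem mem_bar [(N.subgroupOf R).Normal] {X : Subgroup (FG r)} (hN : N ≤ X) {x : FG r}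
    (hx : x ∈ R) : (QuotientGroup.mk (⟨x, hx⟩ : ↥R) : Quo R N) ∈ Bar R N X ↔ x ∈ X := by
  constructor
  · rintro ⟨y, hy, hyx⟩
    have hyx' : (QuotientGroup.mk y : Quo R N) = QuotientGroup.mk (⟨x, hx⟩ : ↥R) := hyx
    rw [QuotientGroup.eq, Subgroup.mem_subgroupOf] at hyx'
    have h1 : (y : FG r) ∈ X := hy
    have h2 := mul_mem h1 (hN hyx')
    have e : (y : FG r) * ((y⁻¹ * (⟨x, hx⟩ : ↥R) : ↥R) : FG r) = x := by
      push_cast
      group
    rwa [e] at h2
  · intro h
    exact ⟨⟨x, hx⟩, h, rfl⟩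

theorem bar_mono [(N.subgroupOf R).Normal] {X Y : Subgroup (FG r)}
    (h : ∀ x ∈ X, x ∈ R → x ∈ Y) : Bar R N X ≤ Bar R N Y := by
  rintro _ ⟨y, hy, rfl⟩
  exact ⟨y, h y hy y.2, rfl⟩

/-- elements of windows bounded on the right -/
def Lft (W : Win R N t) (b : ℤ) : Subgroup (FG r) where
  carrier := {x | ∃ c, x ∈ W.V c b}
  one_mem' := ⟨0, one_mem _⟩
  mul_mem' := by
    rintro x y ⟨c, hc⟩ ⟨d, hd⟩
    exact ⟨min c d, mul_mem (win_mono W (min_le_left _ _) le_rfl hc)
      (win_mono W (min_le_right _ _) le_rfl hd)⟩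
  inv_mem' := by
    rintro x ⟨c, hc⟩
    exact ⟨c, inv_mem hc⟩

/-- elements of windows bounded on the left -/
def Rgt (W : Win R N t) (a : ℤ) : Subgroup (FG r) where
  carrier := {x | ∃ c, x ∈ W.V a c}
  one_mem' := ⟨0, one_mem _⟩
  mul_mem' := by
    rintro x y ⟨c, hc⟩ ⟨d, hd⟩
    exact ⟨max c d, mul_mem (win_mono W le_rfl (le_max_left _ _) hc)
      (win_mono W le_rfl (le_max_right _ _) hd)⟩
  inv_mem' := by
    rintro x ⟨c, hc⟩
    exact ⟨c, inv_mem hc⟩

/-- `x` and `y` differ by an element of a subgroup containing `N`: products of elements of `R`. -/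
theorem swap_mem (hS : Sett R N) {L : Subgroup (FG r)} (hN : N ≤ L) (hL : L ≤ R) {z y : FG r}
    (hz : z ∈ L) (hy : y ∈ R) : y⁻¹ * z * y ∈ L := by
  have e : y⁻¹ * z * y = z * ⁅z⁻¹, y⁻¹⁆ := by
    rw [commutatorElement_def]
    group
  rw [e]
  exact mul_mem hz (hN (hS.RR (Subgroup.commutator_mem_commutator (inv_mem (hL hz)) (inv_mem hy))))

/-- the subgroup `(X ⊓ R) L` -/
def Prd (hS : Sett R N) (X L : Subgroup (FG r)) (hN : N ≤ L) (hL : L ≤ R) : Subgroup (FG r) where
  carrier := {x | ∃ y ∈ X, y ∈ R ∧ y⁻¹ * x ∈ L}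
  one_mem' := ⟨1, one_mem _, one_mem _, by simp⟩
  mul_mem' := by
    rintro x x' ⟨y, hy, hyR, hyL⟩ ⟨y', hy', hyR', hyL'⟩
    refine ⟨y * y', mul_mem hy hy', mul_mem hyR hyR', ?_⟩
    have e : (y * y')⁻¹ * (x * x') = (y'⁻¹ * (y⁻¹ * x) * y') * (y'⁻¹ * x') := by group
    rw [e]
    exact mul_mem (swap_mem hS hN hL hyL hyR') hyL'
  inv_mem' := by
    rintro x ⟨y, hy, hyR, hyL⟩
    refine ⟨y⁻¹, inv_mem hy, inv_mem hyR, ?_⟩
    have e : y⁻¹⁻¹ * x⁻¹ = (y⁻¹⁻¹ * (y⁻¹ * x) * y⁻¹)⁻¹ := by group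
    rw [e]
    exact inv_mem (swap_mem hS hN hL hyL (inv_mem hyR))

theorem CLOSE : T_CLOSE := by
  intro r R N t hS W s n K hn hw hNK hKR hK
  have hnn : (N.subgroupOf R).Normal := by
    have := hS.Nn
    infer_instance
  have hn' : (0 : ℤ) < n := by exact_mod_cast hn
  have hNCl : N ≤ Cl W s n K := fun x hx => mem_cl (hNK hx) (hS.NR hx) (W.N_le _ _ hx)
  have hClR : Cl W s n K ≤ R := cl_le hS s n K
  let _ : CommGroup (Quo R N) := { (inferInstance : Group (Quo R N)) with
    mul_comm := quo_comm hS }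
  -- families
  set Wf : ℤ → Subgroup (FG r) := fun c => W.V (c * n - s) (c * n + n + s) with hWf
  set Ef : ℤ → Subgroup (FG r) := fun c => W.V (c * n - s) (c * n + s) with hEf
  set Kf : ℤ → Subgroup (FG r) := fun c => tr t (c * n) (K ⊓ W.V (-s) (n + s)) with hKf
  have hKW : ∀ c, ∀ x ∈ Kf c, x ∈ Wf c := by
    intro c x hx
    have h1 : (t ^ (c * n))⁻¹ * x * t ^ (c * n) ∈ W.V (-s) (n + s) := (mem_tr.1 hx).2
    rw [win_shift W (c * n)] at h1
    have e : t ^ (c * n) * ((t ^ (c * n))⁻¹ * x * t ^ (c * n)) * (t ^ (c * n))⁻¹ = x := by group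
    rw [e] at h1
    exact win_mono W (by omega) (by omega) h1
  have hNKf : ∀ c, N ≤ Kf c := by
    intro c x hx
    have h1 := conj_N hS (t ^ (c * n))⁻¹ hx
    rw [inv_inv] at h1
    exact ⟨hNK h1, W.N_le _ _ h1⟩
  have hmain := AMALG (Quo R N) (fun c => Bar R N (Wf c)) (fun c => Bar R N (Ef c))
    (fun c => Bar R N (Kf c)) (fun c => bar_mono fun x hx _ => hKW c x hx)
    (by
      intro i x
      induction x using QuotientGroup.induction_on with
      | H a =>
        intro h1 h2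
        have h3 : (QuotientGroup.mk a : Quo R N) ∈ Bar R N (Lft W (i * n + s)) := by
          refine (iSup_le fun c => ?_ : (⨆ c : {c : ℤ // c < i}, Bar R N (Wf c)) ≤ _) h1
          refine bar_mono fun x hx _ => ⟨c.1 * n - s, win_mono W le_rfl ?_ hx⟩
          have hc : c.1 + 1 ≤ i := c.2
          nlinarith
        have h4 : (QuotientGroup.mk a : Quo R N) ∈ Bar R N (Rgt W (i * n - s)) := by
          refine (iSup_le fun c => ?_ : (⨆ c : {c : ℤ // i ≤ c}, Bar R N (Wf c)) ≤ _) h2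
          refine bar_mono fun x hx _ => ⟨c.1 * n + n + s, win_mono W ?_ le_rfl hx⟩
          have hc : i ≤ c.1 := c.2
          nlinarith
        have h3' : (a : FG r) ∈ Lft W (i * n + s) :=
          (mem_bar (fun x hx => (⟨0, W.N_le _ _ hx⟩ : ∃ c, x ∈ W.V c (i * n + s))) a.2).1 h3
        have h4' : (a : FG r) ∈ Rgt W (i * n - s) :=
          (mem_bar (fun x hx => (⟨0, W.N_le _ _ hx⟩ : ∃ c, x ∈ W.V (i * n - s) c)) a.2).1 h4
        exact (mem_bar (W.N_le _ _) a.2).2
          (W.inter _ _ (by omega) _ a.2 h3' h4'))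
    (by
      intro i
      refine le_inf (bar_mono fun x hx _ => ?_) (bar_mono fun x hx _ => ?_)
      · have hx' : x ∈ W.V (i * n - s) (i * n + s) := hx
        show x ∈ W.V ((i - 1) * n - s) ((i - 1) * n + n + s)
        exact win_mono W (by nlinarith) (by nlinarith) hx'
      · have hx' : x ∈ W.V (i * n - s) (i * n + s) := hx
        show x ∈ W.V (i * n - s) (i * n + n + s)
        exact win_mono W le_rfl (by omega) hx')
    (by
      intro i
      ext x
      induction x using QuotientGroup.induction_on with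
      | H a =>
        rw [Subgroup.mem_inf, Subgroup.mem_inf]
        refine and_congr_left fun hE => ?_
        rw [mem_bar (W.N_le _ _) a.2] at hE
        have hE' : (a : FG r) ∈ W.V (i * n - s) (i * n + s) := hE
        rw [mem_bar (hNKf _) a.2, mem_bar (hNKf _) a.2]
        set y : FG r := (t ^ (i * n))⁻¹ * a * t ^ (i * n) with hy
        have hay : (a : FG r) = t ^ (i * n) * y * (t ^ (i * n))⁻¹ := by
          rw [hy]
          group
        have hyV : y ∈ W.V (-s) s := by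
          rw [win_shift W (i * n), ← hay]
          exact win_mono W (by omega) (by omega) hE'
        have hyR : y ∈ R := by
          have h5 := (conj_R hS (t ^ (i * n))⁻¹).1 a.2
          rw [inv_inv] at h5
          exact h5
        have e1 : (t ^ ((i - 1) * n))⁻¹ * (a : FG r) * t ^ ((i - 1) * n) =
            t ^ n * y * (t ^ n)⁻¹ := by
          rw [hy, sub_mul, one_mul, zpow_sub, zpow_natCast]
          group
        have h6 : t ^ n * y * (t ^ n)⁻¹ ∈ W.V (-s) (n + s) := by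
          have h7 := (win_shift_nat W n (-s) s y).1 hyV
          exact win_mono W (by omega) (by omega) h7
        have h8 : y ∈ W.V (-s) (n + s) := win_mono W le_rfl (by omega) hyV
        constructor
        · intro h9
          have h10 := mem_tr.1 h9
          rw [e1] at h10
          exact ⟨(hK y hyV hyR).2 h10.1, h8⟩
        · intro h9
          have h10 := (mem_tr.1 h9).1
          refine mem_tr.2 ?_
          rw [e1]
          exact ⟨(hK y hyV hyR).1 h10, h6⟩)
  have hbarCl : Bar R N (Cl W s n K) ≤ ⨆ c, Bar R N (Kf c) := by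
    rintro _ ⟨⟨x, hxR⟩, hx, rfl⟩
    have hx' : x ∈ Cl W s n K := hx
    have key : ∀ x (hx : x ∈ Cl W s n K),
        (QuotientGroup.mk (⟨x, hClR hx⟩ : ↥R) : Quo R N) ∈ ⨆ c, Bar R N (Kf c) := by
      intro x hx
      refine Subgroup.closure_induction
        (p := fun x hx => (QuotientGroup.mk (⟨x, hClR hx⟩ : ↥R) : Quo R N) ∈
          ⨆ c, Bar R N (Kf c)) ?_ ?_ ?_ ?_ hx
      · rintro y ⟨c, x, h1, h2, h3, rfl⟩
        refine (le_iSup (fun c => Bar R N (Kf c)) c) ?_
        rw [mem_bar (hNKf c)]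
        refine mem_tr.2 ?_
        have e : (t ^ (c * n))⁻¹ * (t ^ (c * n) * x * (t ^ (c * n))⁻¹) * t ^ (c * n) = x := by
          group
        rw [e]
        exact ⟨h1, h3⟩
      · exact one_mem _
      · intro a b ha hb h1 h2
        exact mul_mem h1 h2
      · intro a ha h1
        exact inv_mem h1
    exact key x hx'
  have h3 : ∀ x ∈ W.V (-s) (n + s), (x ∈ Cl W s n K ↔ x ∈ K) := by
    intro x hx
    refine ⟨fun h => ?_, fun h => mem_cl h (hKR h) hx⟩
    have hxR := hClR h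
    have h4 : (QuotientGroup.mk (⟨x, hxR⟩ : ↥R) : Quo R N) ∈ ⨆ c, Bar R N (Kf c) :=
      hbarCl ((mem_bar hNCl hxR).2 h)
    have h5 : (QuotientGroup.mk (⟨x, hxR⟩ : ↥R) : Quo R N) ∈ Bar R N (Wf 0) := by
      rw [mem_bar (W.N_le _ _)]
      show x ∈ W.V (0 * n - s) (0 * n + n + s)
      exact win_mono W (by omega) (by omega) hx
    have h6 := (hmain 0 _ h5).1 h4
    rw [mem_bar (hNKf 0)] at h6
    have h7 := (mem_tr.1 h6).1
    simpa using h7
  refine ⟨hNCl, hClR, h3, ?_, ?_⟩
  · intro x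
    constructor
    · intro h
      have := cl_conj 1 h
      rwa [one_mul, zpow_natCast] at this
    · intro h
      have := cl_conj (-1) h
      have e : t ^ (-1 * (n : ℤ)) * (t ^ n * x * (t ^ n)⁻¹) * (t ^ (-1 * (n : ℤ)))⁻¹ = x := by
        rw [neg_one_mul, zpow_neg, zpow_natCast]
        group
      rwa [e] at this
  · intro hg1 hg2
    -- the subgroups `E c * Cl`
    set P : ℤ → Subgroup (FG r) := fun c => Prd hS (Ef c) (Cl W s n K) hNCl hClR with hP
    have hW0 : ∀ x ∈ Wf 0, x ∈ R → x ∈ P 0 ∧ x ∈ P 1 := by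
      intro x hx hxR
      have hx' : x ∈ W.V (-s) (n + s) := by
        have h4 : x ∈ W.V (0 * n - s) (0 * n + n + s) := hx
        exact win_mono W (by omega) (by omega) h4
      constructor
      · obtain ⟨y, hy, hyR, hyK⟩ := hg1 x hxR
        refine ⟨y, ?_, hyR, mem_cl hyK (mul_mem (inv_mem hyR) hxR)
          (mul_mem (inv_mem (win_mono W le_rfl (by omega) hy)) hx')⟩
        show y ∈ W.V (0 * n - s) (0 * n + s)
        exact win_mono W (by omega) (by omega) hy
      · obtain ⟨y, hy, hyR, hyK⟩ := hg2 x hxR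
        refine ⟨y, ?_, hyR, mem_cl hyK (mul_mem (inv_mem hyR) hxR)
          (mul_mem (inv_mem (win_mono W (by omega) (by omega) hy)) hx')⟩
        show y ∈ W.V (1 * n - s) (1 * n + s)
        exact win_mono W (by omega) (by omega) hy
    have hPc : ∀ c d : ℤ, ∀ x ∈ P d, t ^ (c * n) * x * (t ^ (c * n))⁻¹ ∈ P (c + d) := by
      rintro c d x ⟨y, hy, hyR, hyL⟩
      refine ⟨t ^ (c * n) * y * (t ^ (c * n))⁻¹, ?_, (conj_R hS _).1 hyR, ?_⟩
      · have hy' : y ∈ W.V (d * n - s) (d * n + s) := hy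
        rw [win_shift W (c * n)] at hy'
        show _ ∈ W.V ((c + d) * n - s) ((c + d) * n + s)
        exact win_mono W (by nlinarith) (by nlinarith) hy'
      · have e : (t ^ (c * n) * y * (t ^ (c * n))⁻¹)⁻¹ * (t ^ (c * n) * x * (t ^ (c * n))⁻¹) =
            t ^ (c * n) * (y⁻¹ * x) * (t ^ (c * n))⁻¹ := by group
        rw [e]
        exact cl_conj c hyL
    have hWc : ∀ c : ℤ, ∀ x ∈ Wf c, x ∈ R → x ∈ P c ∧ x ∈ P (c + 1) := by
      intro c x hx hxR
      set z : FG r := (t ^ (c * n))⁻¹ * x * t ^ (c * n) with hz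
      have hxz : x = t ^ (c * n) * z * (t ^ (c * n))⁻¹ := by
        rw [hz]
        group
      have hzR : z ∈ R := by
        have h5 := (conj_R hS (t ^ (c * n))⁻¹).1 hxR
        rw [inv_inv] at h5
        exact h5
      have hzW : z ∈ Wf 0 := by
        show z ∈ W.V (0 * n - s) (0 * n + n + s)
        rw [win_shift W (c * n), ← hxz]
        have hx' : x ∈ W.V (c * n - s) (c * n + n + s) := hx
        exact win_mono W (by omega) (by omega) hx'
      obtain ⟨h5, h6⟩ := hW0 z hzW hzR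
      have h7 := hPc c 0 z h5
      have h8 := hPc c 1 z h6
      rw [← hxz] at h7 h8
      rw [add_zero] at h7
      exact ⟨h7, h8⟩
    have hPle : ∀ c d : ℤ, (∀ y ∈ Ef c, y ∈ R → y ∈ P d) → P c ≤ P d := by
      rintro c d h x ⟨y, hy, hyR, hyL⟩
      have h5 := h y hy hyR
      have h6 : y⁻¹ * x ∈ P d := ⟨1, one_mem _, one_mem _, by simpa using hyL⟩
      have h7 := mul_mem h5 h6
      rwa [mul_inv_cancel_left] at h7
    have hP1 : ∀ c : ℤ, P (c + 1) = P c := by
      intro c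
      refine le_antisymm (hPle _ _ fun y hy hyR => ?_) (hPle _ _ fun y hy hyR => ?_)
      · refine (hWc c y ?_ hyR).1
        have hy' : y ∈ W.V ((c + 1) * n - s) ((c + 1) * n + s) := hy
        show y ∈ W.V (c * n - s) (c * n + n + s)
        exact win_mono W (by nlinarith) (by nlinarith) hy'
      · refine (hWc c y ?_ hyR).2
        have hy' : y ∈ W.V (c * n - s) (c * n + s) := hy
        show y ∈ W.V (c * n - s) (c * n + n + s)
        exact win_mono W le_rfl (by omega) hy'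
    have hPall : ∀ c : ℤ, P c = P 0 := by
      intro c
      induction c using Int.induction_on with
      | zero => rfl
      | succ k ih => rw [hP1, ih]
      | pred k ih =>
        have := hP1 (-(k : ℤ) - 1)
        rw [sub_add_cancel] at this
        rw [← this, ih]
    have hgen : ∀ m : ℕ, ∀ c : ℤ, W.V (c * n) (c * n + m * n) ⊓ R ≤ P 0 := by
      intro m
      induction m with
      | zero =>
        intro c x hx
        rw [← hPall c]
        refine (hWc c x ?_ hx.2).1
        have hx' := hx.1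
        show x ∈ W.V (c * n - s) (c * n + n + s)
        exact win_mono W (by omega) (by push_cast; omega) hx'
      | succ m ih =>
        intro c
        refine (W.gen _ (c * n + n) _ (by omega) (by push_cast; nlinarith)).trans (sup_le ?_ ?_)
        · intro x hx
          rw [← hPall c]
          refine (hWc c x ?_ hx.2).1
          have hx' := hx.1
          show x ∈ W.V (c * n - s) (c * n + n + s)
          exact win_mono W (by omega) (by omega) hx'
        · intro x hx
          refine ih (c + 1) ⟨?_, hx.2⟩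
          have hx' := hx.1
          exact win_mono W (by nlinarith) (by push_cast; nlinarith) hx'
    intro x hxR
    obtain ⟨m, hm⟩ := W.exh x (W.R_le hxR)
    have h5 : x ∈ P 0 := by
      refine hgen (2 * m) (-m) ⟨?_, hxR⟩
      refine win_mono W ?_ ?_ hm
      · have : (m : ℤ) ≤ m * n := by nlinarith [Int.natCast_nonneg m]
        linarith
      · have : (m : ℤ) ≤ m * n := by nlinarith [Int.natCast_nonneg m]
        push_cast
        linarith
    obtain ⟨y, hy, hyR, hyL⟩ := h5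
    refine ⟨y, ?_, hyR, hyL⟩
    have hy' : y ∈ W.V (0 * n - s) (0 * n + s) := hy
    exact win_mono W (by omega) (by omega) hy'

end close

end Pool.Agent.H47.PB
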