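/-
helper47: module COMB of helper10 (MP_b95bd9_al, rank one case).
-/
import Pool.Agent.H10.PB.Targets

set_option autoImplicit false

namespace Pool.Agent.H47.PB

open Pool.Agent.H10.PB

open Classical in
theorem comb_aux (n : ℕ) (a : ℕ → ℝ) (B : ℝ) (ι : Type) (A : ι → Set ℕ) (hB : 0 ≤ B)
    (ha : ∀ k, a k ≤ B) : ∀ (m p : ℕ) (I : Finset ι), n - p ≤ m → p ≤ n →
    (∀ i ∈ I, ∀ k l, k < l → l < n → k ∈ A i → l ∈ A i → ∑ j ∈ Finset.Ico k l, a j ≤ 0) →
    ∑ j ∈ Finset.Ico p n, a j ≤
      B * (((Finset.Ico p n).filter fun k => ∀ i ∈ I, k ∉ A i).card + I.card) := by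
  intro m
  induction m with
  | zero =>
    intro p I hm hp _
    have h0 : p = n := by omega
    subst h0
    simp only [Finset.Ico_self, Finset.sum_empty]
    positivity
  | succ m ih =>
    intro p I hm hp hI
    rcases Nat.lt_or_ge p n with hpn | hpn
    swap
    · have h0 : p = n := by omega
      subst h0
      simp only [Finset.Ico_self, Finset.sum_empty]
      positivity
    by_cases hex : ∃ i ∈ I, p ∈ A i
    · obtain ⟨i, hi, hpi⟩ := hex
      obtain ⟨l, hl, hmax⟩ := Finset.exists_max_image
        ((Finset.Ico p n).filter fun k => k ∈ A i) id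
        ⟨p, by simp [hpn, hpi]⟩
      simp only [Finset.mem_filter, Finset.mem_Ico, id] at hl hmax
      obtain ⟨⟨hpl, hln⟩, hlA⟩ := hl
      have h1 := ih (l + 1) (I.erase i) (by omega) (by omega)
        (fun j hj => hI j (Finset.mem_of_mem_erase hj))
      have h2 : ∑ j ∈ Finset.Ico p l, a j ≤ 0 := by
        rcases Nat.eq_or_lt_of_le hpl with h | h
        · subst h
          simp
        · exact hI i hi p l h hln hpi hlA
      have h3 : ∑ j ∈ Finset.Ico p n, a j =
          ∑ j ∈ Finset.Ico p l, a j + (a l + ∑ j ∈ Finset.Ico (l + 1) n, a j) := by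
        rw [← Finset.sum_Ico_consecutive a hpl hln.le, Finset.sum_eq_sum_Ico_succ_bot hln]
      have h4 : ((Finset.Ico (l + 1) n).filter fun k => ∀ j ∈ I.erase i, k ∉ A j).card ≤
          ((Finset.Ico p n).filter fun k => ∀ j ∈ I, k ∉ A j).card := by
        refine Finset.card_le_card fun k hk => ?_
        simp only [Finset.mem_filter, Finset.mem_Ico] at hk ⊢
        refine ⟨⟨by omega, hk.1.2⟩, fun j hj hkj => ?_⟩
        by_cases hji : j = i
        · subst hji
          have h5 := hmax k ⟨⟨by omega, hk.1.2⟩, hkj⟩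
          omega
        · exact hk.2 j (Finset.mem_erase.2 ⟨hji, hj⟩) hkj
      have h5 : (I.erase i).card + 1 = I.card := Finset.card_erase_add_one hi
      have h4' : (((Finset.Ico (l + 1) n).filter fun k => ∀ j ∈ I.erase i, k ∉ A j).card : ℝ) ≤
          ((Finset.Ico p n).filter fun k => ∀ j ∈ I, k ∉ A j).card := by exact_mod_cast h4
      have h5' : ((I.erase i).card : ℝ) + 1 = I.card := by exact_mod_cast h5
      have h6 := mul_le_mul_of_nonneg_left h4' hB
      have h7 := ha l
      rw [h3, ← h5']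
      nlinarith
    · push Not at hex
      have h1 := ih (p + 1) I (by omega) (by omega) hI
      have h3 : ∑ j ∈ Finset.Ico p n, a j = a p + ∑ j ∈ Finset.Ico (p + 1) n, a j :=
        Finset.sum_eq_sum_Ico_succ_bot hpn a
      have h4 : ((Finset.Ico p n).filter fun k => ∀ j ∈ I, k ∉ A j).card =
          ((Finset.Ico (p + 1) n).filter fun k => ∀ j ∈ I, k ∉ A j).card + 1 := by
        have h5 : (Finset.Ico p n).filter (fun k => ∀ j ∈ I, k ∉ A j) =
            insert p ((Finset.Ico (p + 1) n).filter fun k => ∀ j ∈ I, k ∉ A j) := by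
          ext k
          simp only [Finset.mem_filter, Finset.mem_Ico, Finset.mem_insert]
          constructor
          · rintro ⟨⟨h6, h7⟩, h8⟩
            rcases Nat.eq_or_lt_of_le h6 with h9 | h9
            · exact Or.inl h9.symm
            · exact Or.inr ⟨⟨h9, h7⟩, h8⟩
          · rintro (rfl | ⟨⟨h6, h7⟩, h8⟩)
            · exact ⟨⟨le_refl _, hpn⟩, hex⟩
            · exact ⟨⟨by omega, h7⟩, h8⟩
        rw [h5, Finset.card_insert_of_notMem]
        simp
      have h7 := ha p
      rw [h3, h4]
      push_cast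
      nlinarith

theorem COMB : T_COMB := by
  classical
  intro n a B ι I A hB ha hI
  have h := comb_aux n a B ι A hB ha n 0 I (by omega) (by omega) hI
  rw [Finset.range_eq_Ico]
  refine h.trans (le_of_eq ?_)
  congr 2
  rw [Nat.card_eq_fintype_card, Fintype.card_subtype]
  congr 1
  refine (Finset.card_bij (fun (k : Fin n) _ => (k : ℕ)) ?_ ?_ ?_).symm
  · intro k hk
    simp only [Finset.mem_filter, Finset.mem_univ, true_and] at hk
    simp only [Finset.mem_filter, Finset.mem_Ico]
    exact ⟨⟨Nat.zero_le _, k.2⟩, hk⟩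
  · intro k _ l _ h
    exact Fin.ext h
  · intro k hk
    simp only [Finset.mem_filter, Finset.mem_Ico] at hk
    exact ⟨⟨k, hk.1.2⟩, by simpa using hk.2, rfl⟩

end Pool.Agent.H47.PB
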