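/-
helper47: module SEQN of helper10 (generalisation of module SEQ).
-/
import Pool.Agent.H10.PB.Targets
import Pool.Agent.H10.PS.Fin
import Pool.Agent.H47.PS.SEQ

set_option autoImplicit false

open MeasureTheory Filter Topology

namespace Pool.Agent.H47.PB

open Pool.Agent.H10.PS Pool.Agent.H10.PB Pool.Agent.H47.PS

theorem SEQN : T_SEQN := by
  intro r R N hS h4 U n σ hn hN ε hε
  have hNn : N.Normal := hS.Nn
  have hNR : N ≤ R := hS.NR
  have hRN : ⁅R, R⁆ ≤ N := hS.RR
  have hR : R.Normal := hS.Rn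
  have hcomm : commutator (FG r) ≤ R := hS.comm
  set η₀ : ℝ := ε / (16 * (r + 1)) with hη₀
  have hη₀pos : 0 < η₀ := by positivity
  obtain ⟨J, hJ, hJ', γ, θ, hA⟩ := Pool.Agent.H59.PS.AMEN r R N hR hNn hcomm hNR hRN η₀ hη₀pos
  obtain ⟨D, δ, n₀, hδ, hmatch⟩ := Pool.Agent.H10.PS.MATCH r J γ θ (ε / 2) (by positivity)
  obtain ⟨μ, hμ, hlim⟩ := Pool.Agent.H59.PS.LIM r N U n σ hn hN
  obtain ⟨Y, hY, hY', τ, hτ, hfr⟩ := h4 μ hμ D (δ / 4) (by positivity)
  obtain ⟨n₁, hn₁⟩ := exists_nat_gt (4 * (Nat.card Y : ℝ) / δ)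
  rcases Ultrafilter.eventually_or.1 (Filter.Eventually.of_forall
    (f := (U : Filter ℕ)) fun k => lt_or_ge (n k) (max n₀ n₁)) with hb | hb
  · filter_upwards [bounded_case N U n σ hn hN _ hb] with k hk
    refine ⟨σ k, hk, fun i => ?_⟩
    have h5 : Nat.card {ω : Fin (n k) // σ k (FreeGroup.of i) ω ≠ σ k (FreeGroup.of i) ω} = 0 := by
      have : IsEmpty {ω : Fin (n k) // σ k (FreeGroup.of i) ω ≠ σ k (FreeGroup.of i) ω} :=
        ⟨fun x => x.2 rfl⟩
      exact Nat.card_of_isEmpty
    rw [h5]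
    simp only [Nat.cast_zero]
    positivity
  · have hev1 : ∀ᶠ k in (U : Filter ℕ), ∀ P ∈ D.powerset,
        |freq (σ k) D P - μ.real (cyl D P)| ≤ δ / 4 := by
      rw [Filter.eventually_all_finset]
      intro P hP
      have h5 := (hlim D P hP).sub_const (μ.real (cyl D P))
      rw [sub_self] at h5
      have h6 := h5.abs
      rw [abs_zero] at h6
      exact (h6.eventually (gt_mem_nhds (show (0 : ℝ) < δ / 4 by positivity))).mono
        fun k hk => hk.le
    have hev2 : ∀ᶠ k in (U : Filter ℕ), ∀ i j,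
        (FreeGroup.of i * γ j)⁻¹ * γ (θ i j) ∈ N →
        (Nat.card {c : Fin (n k) // σ k ((FreeGroup.of i * γ j)⁻¹ * γ (θ i j)) c ≠ c} : ℝ) ≤
          η₀ * Nat.card (Fin (n k)) := by
      rw [Filter.eventually_all]
      intro i
      rw [Filter.eventually_all]
      intro j
      by_cases hw : (FreeGroup.of i * γ j)⁻¹ * γ (θ i j) ∈ N
      · filter_upwards [(hN _ hw).eventually (gt_mem_nhds hη₀pos)] with k hk _
        have h5 : (0 : ℝ) < n k := by exact_mod_cast hn k
        rw [div_lt_iff₀ h5] at hk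
        rw [Nat.card_fin]
        exact hk.le
      · exact Filter.Eventually.of_forall fun k h => absurd h hw
    filter_upwards [hb, hev1, hev2] with k hk hk1 hk2
    have hYpos : 0 < Nat.card Y := Nat.card_pos
    set q := n k / Nat.card Y with hq
    set s := n k % Nat.card Y with hs
    have hqs : q * Nat.card Y + s = n k := by
      rw [hq, hs, mul_comm]
      exact Nat.div_add_mod _ _
    have hslt : s ≤ Nat.card Y := (Nat.mod_lt _ hYpos).le
    have hnk : (0 : ℝ) < n k := by exact_mod_cast hn k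
    have hsmall : (Nat.card Y : ℝ) / n k ≤ δ / 4 := by
      rw [div_le_iff₀ hnk]
      have h5 : (n₁ : ℝ) ≤ n k := by exact_mod_cast (le_max_right n₀ n₁).trans hk
      have h6 := hn₁.trans_le h5
      rw [div_lt_iff₀ hδ] at h6
      linarith
    obtain ⟨Φ, hΦ⟩ := hmatch (Fin (n k)) ((Fin q × Y) ⊕ Fin s) (σ k) (act q s τ) (2 * η₀)
      (by positivity) (by rw [card_act, hqs, Nat.card_fin])
      (by rw [Nat.card_fin]; exact (le_max_left n₀ n₁).trans hk)
      (by
        intro P hP
        have h5 := hk1 P hP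
        have h6 := hfr P hP
        have h7 := freq_act q s hslt (by rw [hqs]; exact hn k) τ D P
        rw [hqs] at h7
        have h8 : freq (σ k) D P - freq (act q s τ) D P =
            (freq (σ k) D P - μ.real (cyl D P)) - (freq τ D P - μ.real (cyl D P)) +
              (freq τ D P - freq (act q s τ) D P) := by ring
        rw [h8]
        refine (abs_add_le _ _).trans ?_
        have h9 := abs_sub (freq (σ k) D P - μ.real (cyl D P)) (freq τ D P - μ.real (cyl D P))
        linarith)
      (by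
        intro i
        have h5 := bad_le γ θ (σ k) N η₀ η₀ hη₀pos.le i (hA i) (fun j hj => hk2 i j hj)
        linarith)
      (by
        intro i
        have h5 := bad_le γ θ (act q s τ) N η₀ η₀ hη₀pos.le i (hA i) (fun j hj => by
          have h6 : τ ((FreeGroup.of i * γ j)⁻¹ * γ (θ i j)) = 1 := hτ hj
          have h7 := act_eq_one q s τ _ h6
          have h8 : IsEmpty {c : (Fin q × Y) ⊕ Fin s //
              act q s τ ((FreeGroup.of i * γ j)⁻¹ * γ (θ i j)) c ≠ c} :=
            ⟨fun x => x.2 (DFunLike.congr_fun h7 x.1)⟩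
          rw [Nat.card_of_isEmpty, Nat.cast_zero]
          positivity)
        linarith)
    refine ⟨(Φ.symm.permCongrHom.toMonoidHom).comp (act q s τ), ?_, fun i => ?_⟩
    · intro w hw
      have h6 : τ w = 1 := hτ hw
      rw [MonoidHom.mem_ker, MonoidHom.comp_apply, act_eq_one q s τ w h6, map_one]
    · have h5 := hΦ i
      have h6 : Nat.card {ω : Fin (n k) // σ k (FreeGroup.of i) ω ≠
          (Φ.symm.permCongrHom.toMonoidHom).comp (act q s τ) (FreeGroup.of i) ω} =
          Nat.card {ω : Fin (n k) // Φ (σ k (FreeGroup.of i) ω) ≠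
            act q s τ (FreeGroup.of i) (Φ ω)} := by
        refine Nat.card_congr (Equiv.subtypeEquivRight fun ω => not_congr ?_)
        exact (Equiv.eq_symm_apply Φ)
      rw [h6]
      refine h5.trans ?_
      rw [Nat.card_fin]
      refine mul_le_mul_of_nonneg_right ?_ hnk.le
      have h7 : 4 * (r : ℝ) * (2 * η₀) ≤ ε / 2 := by
        rw [hη₀]
        have h8 : (0 : ℝ) < 16 * ((r : ℝ) + 1) := by positivity
        rw [show 4 * (r : ℝ) * (2 * (ε / (16 * (r + 1)))) = (8 * r * ε) / (16 * (r + 1)) by ring,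
          div_le_iff₀ h8]
        nlinarith
      linarith

end Pool.Agent.H47.PB
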