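/-
helper47: module STABN of helper10 (generalisation of module STAB of helper43).
-/
import Pool.Agent.H10.PB.Targets
import Pool.Agent.H43.PS.STAB

set_option autoImplicit false

open Filter Topology

namespace Pool.Agent.H47.PB

open Pool.Agent.H10.PS Pool.Agent.H10.PB Pool.Agent.H43.PS

theorem STABN : T_STABN := by
  intro r N h G _ π hπ hker n f hf0
  have hf : ∀ g h : G, Tendsto (fun k => dd (f k (g * h)) (f k g * f k h)) atTop (𝓝 0) := hf0
  set σ : ∀ k, FG r →* Equiv.Perm (Fin (n k)) := fun k =>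
    FreeGroup.lift (fun i => f k (π (FreeGroup.of i))) with hσ
  have hA : ∀ w, Tendsto (fun k => dd (σ k w) (f k (π w))) atTop (𝓝 0) := claimA π f hf
  have h1 : Tendsto (fun k => dd 1 (f k 1)) atTop (𝓝 0) := by
    have := hA 1
    simpa using this
  have hK : ∀ w ∈ N, Tendsto (fun k => dd (σ k w) 1) atTop (𝓝 0) := by
    intro w hw
    rw [← hker] at hw
    have hw1 : π w = 1 := hw
    have h2 := (hA w).add h1
    rw [add_zero] at h2
    refine squeeze_zero (fun k => dd_nonneg _ _) (fun k => ?_) h2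
    refine (dd_triangle _ (f k (π w)) _).trans ?_
    rw [hw1, dd_comm (f k 1) 1]
  -- claim B
  have hB : ∀ ε : ℝ, 0 < ε → ∀ᶠ k in atTop, ∃ ρ : FG r →* Equiv.Perm (Fin (n k)),
      N ≤ ρ.ker ∧ ∀ i, dd (σ k (FreeGroup.of i)) (ρ (FreeGroup.of i)) ≤ ε := by
    intro ε hε
    by_contra hbad
    obtain ⟨φ, hφ, hbad⟩ := extraction_of_frequently_atTop (not_eventually.mp hbad)
    have hpos : ∀ k, 0 < n (φ k) := by
      intro k
      rcases Nat.eq_zero_or_pos (n (φ k)) with h0 | h0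
      · exfalso
        apply hbad k
        refine ⟨1, ?_, ?_⟩
        · intro w _
          rfl
        · intro i
          have h0' : (n (φ k) : ℝ) = 0 := by exact_mod_cast h0
          unfold dd
          rw [div_eq_mul_inv, h0', inv_zero, mul_zero]
          exact hε.le
      · exact h0
    have hlim : ∀ w ∈ N,
      Tendsto (fun k => (Nat.card {ω : Fin (n (φ k)) // σ (φ k) w ω ≠ ω} : ℝ) / n (φ k))
        (hyperfilter ℕ : Filter ℕ) (𝓝 0) := by
      intro w hw
      have h3 := ((hK w hw).comp hφ.tendsto_atTop).mono_left Nat.hyperfilter_le_atTop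
      refine h3.congr ?_
      intro k
      have := dd_natCard (σ (φ k) w) 1
      simp only [Equiv.Perm.one_apply] at this
      rw [this]
      rfl
    have h4 := h (hyperfilter ℕ) (fun k => n (φ k)) (fun k => σ (φ k)) hpos hlim ε hε
    obtain ⟨k, ρ, hρ, hρ'⟩ := h4.exists
    apply hbad k
    refine ⟨ρ, hρ, ?_⟩
    intro i
    have h5 := hρ' i
    unfold dd
    rw [div_le_iff₀ (by exact_mod_cast hpos k)]
    rw [← dd_natCard]
    exact h5
  -- minimisers
  have hmin : ∀ k, ∃ ρ : FG r →* Equiv.Perm (Fin (n k)), N ≤ ρ.ker ∧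
      ∀ ρ' : FG r →* Equiv.Perm (Fin (n k)), N ≤ ρ'.ker →
        ∑ i, dd (σ k (FreeGroup.of i)) (ρ (FreeGroup.of i)) ≤
          ∑ i, dd (σ k (FreeGroup.of i)) (ρ' (FreeGroup.of i)) := by
    intro k
    obtain ⟨ρ, hρ, hmin⟩ := Set.exists_min_image
      {ρ : FG r →* Equiv.Perm (Fin (n k)) | N ≤ ρ.ker}
      (fun ρ => ∑ i, dd (σ k (FreeGroup.of i)) (ρ (FreeGroup.of i)))
      (Set.toFinite _) ⟨1, fun w _ => rfl⟩
    exact ⟨ρ, hρ, fun ρ' hρ' => hmin ρ' hρ'⟩
  choose ρ hρ hρmin using hmin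
  have hsum : Tendsto (fun k => ∑ i, dd (σ k (FreeGroup.of i)) (ρ k (FreeGroup.of i)))
      atTop (𝓝 0) := by
    rw [Metric.tendsto_atTop]
    intro ε hε
    have h6 := hB (ε / (r + 1)) (by positivity)
    rw [eventually_atTop] at h6
    obtain ⟨K, hKk⟩ := h6
    refine ⟨K, fun k hk => ?_⟩
    obtain ⟨ρ', hρ', hle⟩ := hKk k hk
    have h7 := hρmin k ρ' hρ'
    have h8 : ∑ i, dd (σ k (FreeGroup.of i)) (ρ' (FreeGroup.of i)) ≤ r * (ε / (r + 1)) := by
      calc _ ≤ ∑ i : Fin r, ε / (r + 1) := Finset.sum_le_sum (fun i _ => hle i)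
        _ = _ := by simp
    have h9 : (r : ℝ) * (ε / (r + 1)) < ε := by
      have : (0 : ℝ) < r + 1 := by positivity
      rw [← mul_div_assoc, div_lt_iff₀ this]
      nlinarith
    have h10 : 0 ≤ ∑ i, dd (σ k (FreeGroup.of i)) (ρ k (FreeGroup.of i)) :=
      Finset.sum_nonneg (fun i _ => dd_nonneg _ _)
    rw [Real.dist_eq, sub_zero, abs_of_nonneg h10]
    linarith
  have hgen : ∀ i, Tendsto (fun k => dd (σ k (FreeGroup.of i)) (ρ k (FreeGroup.of i)))
      atTop (𝓝 0) := by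
    intro i
    refine squeeze_zero (fun k => dd_nonneg _ _) (fun k => ?_) hsum
    exact Finset.single_le_sum (f := fun i => dd (σ k (FreeGroup.of i)) (ρ k (FreeGroup.of i)))
      (fun i _ => dd_nonneg _ _) (Finset.mem_univ i)
  have hall := close_words σ ρ hgen
  refine ⟨fun k => π.liftOfSurjective hπ ⟨ρ k, by rw [hker]; exact hρ k⟩, ?_⟩
  intro g
  obtain ⟨w, rfl⟩ := hπ g
  have h11 := (hA w).add (hall w)
  rw [add_zero] at h11
  show Tendsto (fun k => dd (f k (π w)) _) atTop (𝓝 0)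
  refine squeeze_zero (fun k => dd_nonneg _ _) (fun k => ?_) h11
  have h12 : π.liftOfSurjective hπ ⟨ρ k, by rw [hker]; exact hρ k⟩ (π w) = ρ k w :=
    MonoidHom.liftOfRightInverse_comp_apply _ _ _ _ _
  rw [h12]
  refine (dd_triangle _ (σ k w) _).trans ?_
  rw [dd_comm (f k (π w))]

end Pool.Agent.H47.PB
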